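import Pool.Agent.U173.SL.Defs
import Pool.Agent.TH121.KT.GeoDefs

/-!
# Varieties with given slope fields: definitions
-/

set_option autoImplicit false

open CategoryTheory AlgebraicGeometry NumberField Polynomial

universe u v

namespace Pool.Agent.U173.SL

open Pool.Agent.H914 Pool.Agent.H914.VarClass Pool.Agent.H914.VarClass.Obj
  Pool.Agent.H914.WeilCohomology Pool.Agent.W534 Pool.Agent.TH121.KT

variable {k : Type u} [Field k] {𝒱 : VarClass k} {ops : CycleOps 𝒱}
  {W : WeilCohomology.{u, v} ops} {p : ℕ}

/-- The field `L` is a *slope field* of `X` (at the place `ι` above `p` of the field of algebraic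
numbers): each eigenvalue of the Frobenius endomorphism of `X` on the cohomology is a root of a nonzero
rational polynomial such that the absolute values of its roots at the place `ι` are not changed by the
automorphisms which fix all elements of `L`. -/
def HasSlopeField [Fact p.Prime] (Φ : FrobSystem W p) (ι : AlgebraicClosure ℚ →+* PadicAlgCl p)
    (L : IntermediateField ℚ (AlgebraicClosure ℚ)) (X : 𝒱.Obj) : Prop :=
  ∀ ν : W.K, Module.End.HasEigenvalue (W.map (Φ.Fr X)).toLinearMap ν →
    ∃ Q : ℚ[X], Q ≠ 0 ∧ SlopesFixed p ι L Q ∧ aeval ν Q = 0

/-- The eigenvalues of the Frobenius endomorphism of `X` on the cohomology are Weil numbers (this is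
the theorem of Deligne; `X` is defined over the field with `p ^ Φ.e X` elements). -/
def IsPure (Φ : FrobSystem W p) (X : 𝒱.Obj) : Prop :=
  ∀ ν : W.K, Module.End.HasEigenvalue (W.map (Φ.Fr X)).toLinearMap ν →
    ∃ w, IsWeilNumber (p ^ Φ.e X) w ν

/-- `X` is a *good* variety with slope field `L`: the eigenvalues of Frobenius are Weil numbers, and
those generalised eigenvectors of the Frobenius endomorphisms (over all finite fields) whose eigenvalue
is a rational power of `p` up to a root of unity are linear combinations of classes of cycles
(`SupersingularAlgebraic`: this is the Tate conjecture for `X` in all codimensions, together with the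
semisimplicity of Frobenius on the Tate classes, if there are no eigenvalues of this kind in odd
degrees). -/
structure IsGood [Fact p.Prime] (Φ : FrobSystem W p) (ι : AlgebraicClosure ℚ →+* PadicAlgCl p)
    (L : IntermediateField ℚ (AlgebraicClosure ℚ)) (X : 𝒱.Obj) : Prop where
  algebraic : SupersingularAlgebraic Φ X
  pure : IsPure Φ X
  slopes : HasSlopeField Φ ι L X

/-- The intersection of the fields `L` and `M` is totally real. -/
def MeetInReal (L M : IntermediateField ℚ (AlgebraicClosure ℚ)) : Prop :=
  ∀ z, z ∈ L → z ∈ M → IsTotallyReal z

end Pool.Agent.U173.SL
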