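import Mathlib

/-!
# Weil numbers and totally real numbers: definitions
-/

set_option autoImplicit false

open Polynomial

namespace Pool.Agent.U173.SL

/-- The algebraic number `x` is totally real: its images in the field of complex numbers are real. -/
def IsTotallyReal (x : AlgebraicClosure ℚ) : Prop :=
  ∀ φ : AlgebraicClosure ℚ →+* ℂ, (starRingEnd ℂ) (φ x) = φ x

/-- `ν` is a Weil number for `q`, of weight `w`: an algebraic integer all of whose complex conjugates
have the absolute value `q ^ (w / 2)`. -/
def IsWeilNumber (q w : ℕ) {Ω : Type*} [Field Ω] (ν : Ω) : Prop :=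
  ∃ P : ℤ[X], P.Monic ∧ aeval ν P = 0 ∧ ∀ z : ℂ, aeval z P = 0 → ‖z‖ ^ 2 = (q : ℝ) ^ w

end Pool.Agent.U173.SL
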