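import Pool.Agent.TH121.KT.Final
import Pool.Agent.H485R3.Kron
import Pool.Agent.H485R3.Group
import Pool.Agent.U173.SL.Defs

/-!
# Weil numbers with independent slope fields
-/

set_option autoImplicit false

namespace Pool.Agent.U173.SL

open Polynomial Pool.Agent.TH121.KT

noncomputable section

/-- the complex conjugation of the field of algebraic numbers -/
theorem exists_conj (φ : Qb →+* ℂ) : ∃ c : GQ, ∀ z, φ (c z) = (starRingEnd ℂ) (φ z) := by
  let _ : Algebra Qb ℂ := φ.toAlgebra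
  have hst : IsScalarTower ℚ Qb ℂ := IsScalarTower.of_algebraMap_eq fun x => by
    change _ = φ (algebraMap ℚ Qb x)
    rw [eq_ratCast, eq_ratCast, map_ratCast]
  refine ⟨(Complex.conjAe.restrictScalars ℚ).restrictNormal Qb, fun z => ?_⟩
  exact AlgEquiv.restrictNormal_commutes (Complex.conjAe.restrictScalars ℚ) Qb z

/-- all embeddings differ by automorphisms -/
theorem exists_aut {Ω : Type*} [Field Ω] [CharZero Ω] (ι e : Qb →+* Ω) :
    ∃ g : GQ, ∀ z, e z = ι (g z) := by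
  let _ : Algebra Qb Ω := ι.toAlgebra
  have hst : IsScalarTower ℚ Qb Ω := IsScalarTower.of_algebraMap_eq fun x => by
    change _ = ι (algebraMap ℚ Qb x)
    rw [eq_ratCast, eq_ratCast, map_ratCast]
  let e' : Qb →ₐ[ℚ] Ω := e.toRatAlgHom
  let g : Qb →ₐ[ℚ] Qb := e'.restrictNormal Qb
  have hg : ∀ z, ι (g z) = e z := fun z => AlgHom.restrictNormal_commutes e' Qb z
  have hbij : Function.Bijective g := Algebra.IsAlgebraic.algHom_bijective g
  exact ⟨AlgEquiv.ofBijective g hbij, fun z => (hg z).symm⟩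

variable {p : ℕ} [Fact p.Prime] {ι : Qb →+* PadicAlgCl p}

/-- the group of the automorphisms which do not change the slopes of the conjugates of `x` -/
def stab (ι : Qb →+* PadicAlgCl p) (x : Qb) : Subgroup GQ where
  carrier := {h | ∀ g : GQ, ‖ι (h (g x))‖ = ‖ι (g x)‖}
  mul_mem' {a b} ha hb g := by
    change ‖ι (a ((b * g) x))‖ = _
    rw [ha (b * g)]
    exact hb g
  one_mem' g := rfl
  inv_mem' {a} ha g := by
    have h1 := ha (a⁻¹ * g)
    have h2 : a ((a⁻¹ * g) x) = g x := by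
      change (a * (a⁻¹ * g)) x = g x
      rw [mul_inv_cancel_left]
    rw [h2] at h1
    exact h1.symm

theorem mem_stab {x : Qb} {h : GQ} : h ∈ stab ι x ↔ ∀ g : GQ, ‖ι (h (g x))‖ = ‖ι (g x)‖ := Iff.rfl

theorem isClosed_stab (x : Qb) : IsClosed (stab ι x : Set GQ) := by
  apply Subgroup.isClosed_of_isOpen
  let F : IntermediateField ℚ Qb := IntermediateField.normalClosure ℚ (IntermediateField.adjoin ℚ {x}) Qb
  have hfd : FiniteDimensional ℚ (IntermediateField.adjoin ℚ {x}) :=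
    IntermediateField.adjoin.finiteDimensional (Algebra.IsIntegral.isIntegral x)
  have hF : FiniteDimensional ℚ F := normalClosure.is_finiteDimensional _ _ _
  refine Subgroup.isOpen_mono (H₁ := F.fixingSubgroup) ?_ (IntermediateField.fixingSubgroup_isOpen F)
  intro h hh g
  congr 2
  have hx : g x ∈ F := by
    have h1 : x ∈ F := (IntermediateField.le_normalClosure _)
      (IntermediateField.subset_adjoin ℚ {x} (Set.mem_singleton x))
    have hn : Normal ℚ F := normalClosure.normal ℚ _ _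
    have h2 : F.map (g : Qb →ₐ[ℚ] Qb) ≤ F := (IntermediateField.normal_iff_forall_map_le.1 hn) _
    exact h2 ⟨x, h1, rfl⟩
  exact hh ⟨g x, hx⟩

/-- **Slopes are invariant under the complex conjugations**, if two slope fields meet in a totally
real field. -/
theorem conj_mem_stab {L M : IntermediateField ℚ Qb} (hreal : ∀ x ∈ L ⊓ M, IsTotallyReal x)
    {x : Qb} (hL : ∀ h : GQ, (∀ z ∈ L, h z = z) → h ∈ stab ι x)
    (hM : ∀ h : GQ, (∀ z ∈ M, h z = z) → h ∈ stab ι x) {φ : Qb →+* ℂ} {c : GQ}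
    (hc : ∀ z, φ (c z) = (starRingEnd ℂ) (φ z)) : c ∈ stab ι x := by
  have h1 : IntermediateField.fixedField (stab ι x) ≤ L ⊓ M := by
    refine le_inf ?_ ?_
    · intro z hz
      exact mem_of_fixed L fun h hh => hz ⟨h, hL h hh⟩
    · intro z hz
      exact mem_of_fixed M fun h hh => hz ⟨h, hM h hh⟩
  have h2 : (IntermediateField.fixedField (stab ι x)).fixingSubgroup = stab ι x :=
    InfiniteGalois.fixingSubgroup_fixedField ⟨stab ι x, isClosed_stab x⟩
  rw [← h2]
  rintro ⟨z, hz⟩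
  apply φ.injective
  change φ (c z) = φ z
  rw [hc]
  exact hreal z (h1 hz) φ

theorem weil_conj {q w : ℕ} {x : Qb} (hW : IsWeilNumber q w x) (φ : Qb →+* ℂ) (g : GQ) :
    ‖φ (g x)‖ ^ 2 = (q : ℝ) ^ w := by
  obtain ⟨P, -, hP, hz⟩ := hW
  apply hz
  have h0 : P.eval₂ (Int.castRingHom Qb) x = 0 := by
    rw [← hP, aeval_def]
    exact congrArg (fun f => P.eval₂ f x) (Subsingleton.elim _ _)
  have h2 := Polynomial.hom_eval₂ P (Int.castRingHom Qb) (φ.comp (g : Qb →+* Qb)) x
  have h3 : (φ.comp (g : Qb →+* Qb)).comp (Int.castRingHom Qb) = algebraMap ℤ ℂ :=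
    RingHom.ext_int _ _
  rw [h3, h0, map_zero] at h2
  exact h2.symm

theorem weil_integral {q w : ℕ} {Ω : Type*} [Field Ω] {x : Ω} (hW : IsWeilNumber q w x) :
    IsIntegral ℤ x := by
  obtain ⟨P, hP, h0, -⟩ := hW
  exact ⟨P, hP, h0⟩

/-- **Supersingular numbers**: a Weil number with all slopes equal. -/
theorem torsion_of_slopes {m w : ℕ} {x : Qb} (hW : IsWeilNumber (p ^ m) w x)
    (hs : ∀ g : GQ, ‖ι (g x)‖ ^ 2 = ‖(p : PadicAlgCl p)‖ ^ (m * w)) :
    ∃ N : ℕ, 0 < N ∧ x ^ (2 * N) = (p : Qb) ^ (m * w * N) := by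
  have hp : p.Prime := Fact.out
  have hp0 : (p : Qb) ≠ 0 := by exact_mod_cast hp.ne_zero
  set u : Qb := x ^ 2 / (p : Qb) ^ (m * w) with hu
  have hint : IsIntegral ℤ u := by
    refine Pool.Agent.H485R3.isIntegral_of_norm_le u fun l _ e => ?_
    have h1 : e u = e x ^ 2 / (p : PadicAlgCl l) ^ (m * w) := by
      rw [hu, map_div₀, map_pow, map_pow, map_natCast]
    by_cases hl : l = p
    · subst hl
      obtain ⟨g, hg⟩ := exists_aut ι (e : Qb →+* PadicAlgCl l)
      have hgx : e x = ι (g x) := hg x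
      rw [h1, norm_div, norm_pow, norm_pow, hgx, hs g]
      have h2 : ‖(l : PadicAlgCl l)‖ ^ (m * w) ≠ 0 := by
        have : (l : PadicAlgCl l) ≠ 0 := by exact_mod_cast hp.ne_zero
        exact pow_ne_zero _ (norm_ne_zero_iff.2 this)
      exact (div_self h2).le
    · have h2 : ‖(p : PadicAlgCl l)‖ = 1 := by
        have h4 : (p : PadicAlgCl l) = algebraMap ℚ_[l] (PadicAlgCl l) (p : ℚ_[l]) := by simp
        rw [h4, PadicAlgCl.norm_extends, Padic.norm_natCast_eq_one_iff]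
        exact (Nat.coprime_primes (Fact.out : l.Prime) hp).2 hl
      have h3 : ‖e x‖ ≤ 1 := Pool.Agent.H485R3.norm_le_one_of_isIntegral l _
        ((weil_integral hW).map (e : Qb →+* PadicAlgCl l).toIntAlgHom)
      rw [h1, norm_div, norm_pow, norm_pow, h2, one_pow, div_one]
      exact pow_le_one₀ (norm_nonneg _) h3
  -- complex absolute values
  have habs : ∀ φ : Qb →+* ℂ, ‖φ u‖ = 1 := by
    intro φ
    have h1 := weil_conj hW φ 1
    have h2 : φ u = φ x ^ 2 / (p : ℂ) ^ (m * w) := by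
      rw [hu, map_div₀, map_pow, map_pow, map_natCast]
    rw [h2, norm_div, norm_pow, norm_pow, Complex.norm_natCast]
    have h3 : ‖φ x‖ ^ 2 = ((p ^ m : ℕ) : ℝ) ^ w := h1
    rw [h3]
    push_cast
    rw [← pow_mul]
    exact div_self (pow_ne_zero _ (by exact_mod_cast hp.ne_zero))
  let F : IntermediateField ℚ Qb := IntermediateField.adjoin ℚ {u}
  have hfd : FiniteDimensional ℚ F :=
    IntermediateField.adjoin.finiteDimensional (Algebra.IsIntegral.isIntegral u)
  let u' : F := ⟨u, IntermediateField.subset_adjoin ℚ {u} (Set.mem_singleton u)⟩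
  have hint' : IsIntegral ℤ u' := by
    obtain ⟨P, hP, h0⟩ := hint
    refine ⟨P, hP, ?_⟩
    apply (algebraMap F Qb).injective
    rw [Polynomial.hom_eval₂, map_zero]
    have h3 : (algebraMap F Qb).comp (algebraMap ℤ F) = algebraMap ℤ Qb := RingHom.ext_int _ _
    rw [h3]
    exact h0
  obtain ⟨N, hN, h1⟩ := Pool.Agent.H485R3.pow_eq_one_of_norm u' hint' (by
    intro φ
    let _ : Algebra F ℂ := (φ : F →+* ℂ).toAlgebra
    have hst : IsScalarTower ℚ F ℂ := IsScalarTower.of_algebraMap_eq fun y => (φ.commutes y).symm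
    let ψ : Qb →ₐ[F] ℂ := IsAlgClosed.lift
    have h2 : ψ u = φ u' := ψ.commutes u'
    rw [← h2]
    exact habs (ψ : Qb →+* ℂ))
  refine ⟨N, hN, ?_⟩
  have h2 : u ^ N = 1 := by
    have := congrArg (algebraMap F Qb) h1
    rwa [map_pow, map_one] at this
  rw [hu, div_pow, div_eq_one_iff_eq (pow_ne_zero _ (pow_ne_zero _ hp0))] at h2
  rw [pow_mul, h2, ← pow_mul]

/-- **The main lemma.** Let `x`, `y` be algebraic numbers, `x` a Weil number, such that the slopes of
the conjugates are determined by fields which meet in a totally real field. If `x ^ A * y ^ B` is a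
power of `p` then a power of `x` is a power of `p`. -/
theorem core {L M : IntermediateField ℚ Qb} (hreal : ∀ z ∈ L ⊓ M, IsTotallyReal z)
    {x y : Qb} (hL : ∀ h : GQ, (∀ z ∈ L, h z = z) → ∀ g : GQ, ‖ι (h (g x))‖ = ‖ι (g x)‖)
    (hM : ∀ h : GQ, (∀ z ∈ M, h z = z) → ∀ g : GQ, ‖ι (h (g y))‖ = ‖ι (g y)‖)
    {m w : ℕ} (hW : IsWeilNumber (p ^ m) w x) {A B : ℕ} (hA : 0 < A) {C : ℤ}
    (hrel : x ^ A * y ^ B = (p : Qb) ^ C) : ∃ N : ℕ, 0 < N ∧ x ^ (2 * N) = (p : Qb) ^ (m * w * N) := by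
  classical
  have hp : p.Prime := Fact.out
  have hp0 : (p : Qb) ≠ 0 := by exact_mod_cast hp.ne_zero
  have hnorm : ∀ g : GQ, ‖ι (g x)‖ ^ A * ‖ι (g y)‖ ^ B = ‖(p : PadicAlgCl p)‖ ^ C := by
    intro g
    rw [← norm_pow, ← norm_pow, ← norm_mul, ← map_pow, ← map_pow, ← map_pow, ← map_pow, ← map_mul,
      ← map_mul, hrel, map_zpow₀, map_zpow₀, map_natCast, map_natCast, norm_zpow]
  have hpn : ‖(p : PadicAlgCl p)‖ ≠ 0 := by
    have : (p : PadicAlgCl p) ≠ 0 := by exact_mod_cast hp.ne_zero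
    exact norm_ne_zero_iff.2 this
  have hM' : ∀ h : GQ, (∀ z ∈ M, h z = z) → h ∈ stab ι x := by
    intro h hh g
    have h1 := hnorm g
    have h2 := hnorm (h * g)
    have h3 : ‖ι ((h * g) y)‖ = ‖ι (g y)‖ := hM h hh g
    rw [h3, ← h1] at h2
    have h4 : ‖ι (g y)‖ ^ B ≠ 0 := by
      intro h0
      rw [h0, mul_zero] at h1
      exact zpow_ne_zero _ hpn h1.symm
    have h5 : ‖ι ((h * g) x)‖ ^ A = ‖ι (g x)‖ ^ A := mul_right_cancel₀ h4 h2
    exact (pow_left_inj₀ (norm_nonneg _) (norm_nonneg _) hA.ne').1 h5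
  let φ : Qb →+* ℂ := (IsAlgClosed.lift : Qb →ₐ[ℚ] ℂ).toRingHom
  obtain ⟨c, hc⟩ := exists_conj φ
  have hcs : c ∈ stab ι x := conj_mem_stab hreal (fun h hh => hL h hh) hM' hc
  refine torsion_of_slopes (ι := ι) hW fun g => ?_
  have h1 : g x * c (g x) = (p : Qb) ^ (m * w) := by
    apply φ.injective
    rw [map_mul, hc, Complex.mul_conj, Complex.normSq_eq_norm_sq, weil_conj hW φ g, map_pow,
      map_natCast]
    push_cast
    rw [← pow_mul]
  have h2 : ‖ι (g x)‖ * ‖ι (c (g x))‖ = ‖(p : PadicAlgCl p)‖ ^ (m * w) := by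
    rw [← norm_mul, ← map_mul, h1, map_pow, map_natCast, norm_pow]
  rw [hcs g, ← sq] at h2
  exact h2

end

end Pool.Agent.U173.SL
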