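import Pool.Agent.U173.SL.Core

/-!
# Numbers whose slopes are determined by a field
-/

set_option autoImplicit false

namespace Pool.Agent.U173.SL

open Polynomial Pool.Agent.TH121.KT

noncomputable section

variable {p : ℕ} [Fact p.Prime] {ι : Qb →+* PadicAlgCl p} {L M : IntermediateField ℚ Qb}

/-- the slopes of the conjugates of `y` are determined by `L` -/
def Det (ι : Qb →+* PadicAlgCl p) (L : IntermediateField ℚ Qb) (y : Qb) : Prop :=
  ∀ h : GQ, (∀ z ∈ L, h z = z) → ∀ g : GQ, ‖ι (h (g y))‖ = ‖ι (g y)‖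

theorem det_of_root {Q : ℚ[X]} (hQ : SlopesFixed p ι L Q) {y : Qb} (hy : aeval y Q = 0) :
    Det ι L y := by
  intro h hh g
  refine hQ h hh (g y) ?_
  have h1 : aeval ((g : Qb →ₐ[ℚ] Qb) y) Q = (g : Qb →ₐ[ℚ] Qb) (aeval y Q) :=
    Polynomial.aeval_algHom_apply _ _ _
  rw [hy, map_zero] at h1
  exact h1

theorem Det.mul {x y : Qb} (hx : Det ι L x) (hy : Det ι L y) : Det ι L (x * y) := by
  intro h hh g
  rw [map_mul, map_mul, map_mul, map_mul, norm_mul, norm_mul, hx h hh g, hy h hh g]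

theorem Det.pow {x : Qb} (hx : Det ι L x) (n : ℕ) : Det ι L (x ^ n) := by
  intro h hh g
  rw [map_pow, map_pow, map_pow, map_pow, norm_pow, norm_pow, hx h hh g]

theorem Det.of_pow {x : Qb} {n : ℕ} (hn : n ≠ 0) (hx : Det ι L (x ^ n)) : Det ι L x := by
  intro h hh g
  have h1 := hx h hh g
  rw [map_pow, map_pow, map_pow, map_pow, norm_pow, norm_pow] at h1
  exact (pow_left_inj₀ (norm_nonneg _) (norm_nonneg _) hn).1 h1

theorem Det.mono {x : Qb} (hx : Det ι L x) (hLM : L ≤ M) : Det ι M x :=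
  fun h hh g => hx h (fun z hz => hh z (hLM hz)) g

theorem Det.slopesFixed {y : Qb} (hy : Det ι L y) : SlopesFixed p ι L (minpoly ℚ y) := by
  intro h hh β hβ
  have hyi : IsIntegral ℚ y := Algebra.IsIntegral.isIntegral y
  have h1 : minpoly ℚ β = minpoly ℚ y :=
    (minpoly.eq_of_irreducible_of_monic (minpoly.irreducible hyi) hβ (minpoly.monic hyi)).symm
  obtain ⟨g, hg⟩ := (Normal.minpoly_eq_iff_mem_orbit Qb).mp h1
  have hg' : g y = β := hg
  rw [← hg']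
  exact hy h hh g

theorem weil_lift {Ω : Type*} [Field Ω] (τ : Qb →+* Ω) {x : Qb} {μ : Ω} (hτ : τ x = μ) {q w : ℕ}
    (hW : IsWeilNumber q w μ) : IsWeilNumber q w x := by
  obtain ⟨P, hP, h0, hz⟩ := hW
  refine ⟨P, hP, ?_, hz⟩
  have h1 : P.eval₂ (Int.castRingHom Ω) μ = 0 := by
    rw [← h0, aeval_def]
    exact congrArg (fun f => P.eval₂ f μ) (Subsingleton.elim _ _)
  have h2 := Polynomial.hom_eval₂ P (Int.castRingHom Qb) τ x
  have h3 : τ.comp (Int.castRingHom Qb) = Int.castRingHom Ω := RingHom.ext_int _ _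
  rw [h3, hτ, h1] at h2
  have h4 : P.eval₂ (Int.castRingHom Qb) x = 0 := τ.injective (by rw [h2, map_zero])
  rw [aeval_def]
  refine Eq.trans ?_ h4
  exact congrArg (fun f => P.eval₂ f x) (Subsingleton.elim _ _)

theorem weil_push {Ω : Type*} [Field Ω] (τ : Qb →+* Ω) {x : Qb} {q w : ℕ}
    (hW : IsWeilNumber q w x) : IsWeilNumber q w (τ x) := by
  obtain ⟨P, hP, h0, hz⟩ := hW
  refine ⟨P, hP, ?_, hz⟩
  have h1 : P.eval₂ (Int.castRingHom Qb) x = 0 := by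
    rw [← h0, aeval_def]
    exact congrArg (fun f => P.eval₂ f x) (Subsingleton.elim _ _)
  have h2 := Polynomial.hom_eval₂ P (Int.castRingHom Qb) τ x
  rw [h1, map_zero] at h2
  rw [aeval_def]
  refine Eq.trans ?_ h2.symm
  exact congrArg (fun f => P.eval₂ f (τ x)) (Subsingleton.elim _ _)

/-- **The main lemma in any algebraically closed field.** -/
theorem ss_of_rel {Ω : Type*} [Field Ω] [CharZero Ω] [IsAlgClosed Ω]
    (hreal : ∀ z ∈ L ⊓ M, IsTotallyReal z) {μ ν : Ω} {Q R : ℚ[X]} (hQ0 : Q ≠ 0)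
    (hQ : SlopesFixed p ι L Q) (hμ : aeval μ Q = 0) (hR0 : R ≠ 0) (hR : SlopesFixed p ι M R)
    (hν : aeval ν R = 0) {m w : ℕ} (hW : IsWeilNumber (p ^ m) w μ) {A B : ℕ} (hA : 0 < A) {C : ℤ}
    (hrel : μ ^ A * ν ^ B = (p : Ω) ^ C) :
    ∃ N : ℕ, 0 < N ∧ μ ^ (2 * N) = (p : Ω) ^ (m * w * N) := by
  let τ : Qb →+* Ω := (IsAlgClosed.lift : Qb →ₐ[ℚ] Ω).toRingHom
  obtain ⟨x, hx, hτx⟩ := exists_root τ hQ0 hμ
  obtain ⟨y, hy, hτy⟩ := exists_root τ hR0 hν
  have hWx : IsWeilNumber (p ^ m) w x := weil_lift τ hτx hW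
  have hrel' : x ^ A * y ^ B = (p : Qb) ^ C := by
    apply τ.injective
    rw [map_mul, map_pow, map_pow, hτx, hτy, hrel, map_zpow₀, map_natCast]
  obtain ⟨N, hN, h⟩ := core hreal (det_of_root hQ hx) (det_of_root hR hy) hWx hA hrel'
  refine ⟨N, hN, ?_⟩
  have := congrArg τ h
  rwa [map_pow, hτx, map_pow, map_natCast] at this

/-- roots of Weil numbers -/
theorem weil_of_norms {q w : ℕ} {y : Qb} (hint : IsIntegral ℤ y)
    (h : ∀ (φ : Qb →+* ℂ) (g : GQ), ‖φ (g y)‖ ^ 2 = (q : ℝ) ^ w) : IsWeilNumber q w y := by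
  obtain ⟨P₀, hP₀, h0⟩ := hint
  -- the minimal polynomial over the integers
  have hyi : IsIntegral ℚ y := Algebra.IsIntegral.isIntegral y
  have hint' : IsIntegral ℤ y := ⟨P₀, hP₀, h0⟩
  refine ⟨minpoly ℤ y, minpoly.monic hint', minpoly.aeval ℤ y, fun z hz => ?_⟩
  have h1 : minpoly ℚ y = (minpoly ℤ y).map (algebraMap ℤ ℚ) :=
    minpoly.isIntegrallyClosed_eq_field_fractions' ℚ hint'
  let φ : Qb →+* ℂ := (IsAlgClosed.lift : Qb →ₐ[ℚ] ℂ).toRingHom
  have h2 : aeval z (minpoly ℚ y) = 0 := by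
    rw [h1, aeval_map_algebraMap]
    exact hz
  obtain ⟨β, hβ, rfl⟩ := exists_root φ (minpoly.ne_zero hyi) h2
  have h3 : minpoly ℚ β = minpoly ℚ y :=
    (minpoly.eq_of_irreducible_of_monic (minpoly.irreducible hyi) hβ (minpoly.monic hyi)).symm
  obtain ⟨g, hg⟩ := (Normal.minpoly_eq_iff_mem_orbit Qb).mp h3
  have hg' : g y = β := hg
  rw [← hg']
  exact h φ g

end

end Pool.Agent.U173.SL
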