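import Pool.Agent.U173.SL.Defs

/-!
# Families of fields which meet pairwise in totally real fields: definitions
-/

set_option autoImplicit false

namespace Pool.Agent.U173.SL

/-- The field `L` contains `K` and is stable under the automorphisms which fix all elements of `K`. -/
def IsNormalOver (K L : IntermediateField ℚ (AlgebraicClosure ℚ)) : Prop :=
  K ≤ L ∧ ∀ g : AlgebraicClosure ℚ ≃ₐ[ℚ] AlgebraicClosure ℚ, (∀ z ∈ K, g z = z) → ∀ z ∈ L, g z ∈ L

/-- The fields `L i`, `i ∈ s`, contain the totally real field `K`, any two of them meet in a totally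
real field, and at most one of them is not normal over `K`. -/
structure ArePairwise {I : Type*} (K : IntermediateField ℚ (AlgebraicClosure ℚ))
    (L : I → IntermediateField ℚ (AlgebraicClosure ℚ)) (s : Set I) : Prop where
  real : ∀ z ∈ K, IsTotallyReal z
  le : ∀ i ∈ s, K ≤ L i
  normal : ∀ i ∈ s, ∀ j ∈ s, i ≠ j → IsNormalOver K (L i) ∨ IsNormalOver K (L j)
  meet : ∀ i ∈ s, ∀ j ∈ s, i ≠ j → ∀ z, z ∈ L i → z ∈ L j → IsTotallyReal z

theorem ArePairwise.exists_index {I : Type*} {K : IntermediateField ℚ (AlgebraicClosure ℚ)}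
    {L : I → IntermediateField ℚ (AlgebraicClosure ℚ)} {s : Set I} (h : ArePairwise K L s)
    (hs : s.Nonempty) : ∃ i₀ : I, ∀ i ∈ s, i ≠ i₀ → IsNormalOver K (L i) := by
  by_cases hex : ∃ i ∈ s, ¬ IsNormalOver K (L i)
  · obtain ⟨i₀, hi₀, hn⟩ := hex
    exact ⟨i₀, fun i hi hne => (h.normal i hi i₀ hi₀ hne).resolve_right hn⟩
  · push Not at hex
    obtain ⟨i₀, -⟩ := hs
    exact ⟨i₀, fun i hi _ => hex i hi⟩

theorem ArePairwise.mono {I : Type*} {K : IntermediateField ℚ (AlgebraicClosure ℚ)}
    {L : I → IntermediateField ℚ (AlgebraicClosure ℚ)} {s t : Set I} (h : ArePairwise K L s)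
    (hts : t ⊆ s) : ArePairwise K L t where
  real := h.real
  le := fun i hi => h.le i (hts hi)
  normal := fun i hi j hj => h.normal i (hts hi) j (hts hj)
  meet := fun i hi j hj => h.meet i (hts hi) j (hts hj)

end Pool.Agent.U173.SL
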