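import Mathlib

/-!
# Functions on a finite group which are invariant under normal subgroups
-/

set_option autoImplicit false

namespace Pool.Agent.U173.SL

variable {G : Type*} [Group G] [Fintype G] {R : Type*} [AddCommGroup R] [Module ℚ R]

/-- the stabilizer of a function under left translations -/
def leftStab (f : G → R) : Subgroup G where
  carrier := {h | ∀ g, f (h * g) = f g}
  mul_mem' {a b} ha hb g := by
    change f (a * b * g) = f g
    rw [mul_assoc, ha, hb]
  one_mem' g := by rw [one_mul]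
  inv_mem' {a} ha g := by
    have h1 := ha (a⁻¹ * g)
    rw [mul_inv_cancel_left] at h1
    exact h1.symm

theorem mem_leftStab {f : G → R} {h : G} : h ∈ leftStab f ↔ ∀ g, f (h * g) = f g := Iff.rfl

open Classical in
/-- the sum of the translates under a subgroup -/
noncomputable def tr (H : Subgroup G) (f : G → R) (g : G) : R :=
  ∑ h : H, f (h * g)

theorem eq_zero_of_odd {f : G → R} {c : G} (hc : c ∈ leftStab f) (ho : ∀ g, f (c * g) = - f g)
    (g : G) : f g = 0 := by
  have h1 := hc g
  rw [ho] at h1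
  have h2 : (2 : ℚ) • f g = 0 := by
    rw [two_smul]
    nth_rewrite 1 [← h1]
    exact neg_add_cancel _
  exact (smul_eq_zero.1 h2).resolve_left two_ne_zero

/-- translates of the sums -/
theorem tr_stab_self (H : Subgroup G) (f : G → R) : H ≤ leftStab (tr H f) := by
  classical
  intro k hk g
  unfold tr
  refine Fintype.sum_equiv (Equiv.mulRight (⟨k, hk⟩ : H)) _ _ fun h => ?_
  rw [Equiv.coe_mulRight, Subgroup.coe_mul, mul_assoc]

theorem tr_comm {H : Subgroup G} {f f' : G → R} {k : G} (hk : ∀ h ∈ H, k⁻¹ * h * k ∈ H)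
    (hf : ∀ g, f (k * g) = f' g) (g : G) : tr H f (k * g) = tr H f' g := by
  classical
  unfold tr
  have hk' : ∀ h ∈ H, k * h * k⁻¹ ∈ H := by
    -- finiteness
    let φ : H → H := fun h => ⟨k⁻¹ * h * k, hk h h.2⟩
    have hφ : Function.Injective φ := by
      intro a b hab
      have h1 := congrArg Subtype.val hab
      exact Subtype.ext (mul_left_cancel (mul_right_cancel h1))
    have hs := Finite.surjective_of_injective hφ
    intro h hh
    obtain ⟨a, ha⟩ := hs ⟨h, hh⟩
    have h1 : k⁻¹ * a * k = h := congrArg Subtype.val ha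
    rw [← h1]
    simp only [mul_assoc, mul_inv_cancel_left, mul_inv_cancel, mul_one]
    exact a.2
  let e : H ≃ H :=
    { toFun := fun h => ⟨k⁻¹ * h * k, hk h h.2⟩
      invFun := fun h => ⟨k * h * k⁻¹, hk' h h.2⟩
      left_inv := fun h => Subtype.ext (by simp [mul_assoc])
      right_inv := fun h => Subtype.ext (by simp [mul_assoc]) }
  refine Fintype.sum_equiv e _ _ fun h => ?_
  rw [← hf]
  congr 1
  change (h : G) * (k * g) = k * (k⁻¹ * h * k * g)
  simp only [mul_assoc, mul_inv_cancel_left]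

theorem tr_of_le {H : Subgroup G} {f : G → R} (h : H ≤ leftStab f) (g : G) :
    tr H f g = (Nat.card H : ℚ) • f g := by
  classical
  unfold tr
  rw [Finset.sum_congr rfl (fun h' _ => h h'.2 g), Finset.sum_const, Finset.card_univ,
    Nat.card_eq_fintype_card, Nat.cast_smul_eq_nsmul]

/-- **The independence lemma.** `f i` is invariant under `H i`, and odd with respect to `c`. -/
theorem indep {I : Type*} [DecidableEq I] (s : Finset I) (H : I → Subgroup G) (K : Subgroup G) (c : G)
    (i₀ : I) (hN : ∀ i ∈ s, i ≠ i₀ → ∀ k : G, (k = c ∨ k ∈ K ∨ ∃ j ∈ s, k ∈ H j) →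
      ∀ h ∈ H i, k⁻¹ * h * k ∈ H i)
    (hc : ∀ i ∈ s, ∀ j ∈ s, i ≠ j → c ∈ H i ⊔ H j) (hK : ∀ i ∈ s, c ∈ H i ⊔ K)
    (f : I → G → R) (hf : ∀ i ∈ s, H i ≤ leftStab (f i)) (ho : ∀ i ∈ s, ∀ g, f i (c * g) = - f i g)
    (hs : K ≤ leftStab (fun g => ∑ i ∈ s, f i g)) : ∀ i ∈ s, ∀ g, f i g = 0 := by
  classical
  have key : ∀ i ∈ s, i ≠ i₀ → ∀ g, f i g = 0 := by
    intro i hi hi₀
    -- the traces of the other functions
    have h1 : ∀ j ∈ s, j ≠ i → ∀ g, tr (H i) (f j) g = 0 := by
      intro j hj hji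
      refine eq_zero_of_odd (c := c) ?_ ?_
      · have h2 : H i ⊔ H j ≤ leftStab (tr (H i) (f j)) := by
          refine sup_le (tr_stab_self _ _) ?_
          intro k hk g
          exact tr_comm (hN i hi hi₀ k (Or.inr (Or.inr ⟨j, hj, hk⟩))) (hf j hj hk) g
        exact h2 (hc i hi j hj hji.symm)
      · intro g
        rw [tr_comm (f' := fun g => - f j g) (hN i hi hi₀ c (Or.inl rfl)) (ho j hj)]
        unfold tr
        rw [Finset.sum_neg_distrib]
    have h2 : ∀ g, tr (H i) (fun g => ∑ j ∈ s, f j g) g = (Nat.card (H i) : ℚ) • f i g := by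
      intro g
      have h3 : tr (H i) (fun g => ∑ j ∈ s, f j g) g = ∑ j ∈ s, tr (H i) (f j) g := by
        unfold tr
        exact Finset.sum_comm
      rw [h3, Finset.sum_eq_single_of_mem i hi (fun j hj hji => h1 j hj hji g), tr_of_le (hf i hi)]
    have hcard : (Nat.card (H i) : ℚ) ≠ 0 := by exact_mod_cast Nat.card_pos.ne'
    refine eq_zero_of_odd (c := c) ?_ (ho i hi)
    have h3 : H i ⊔ K ≤ leftStab (f i) := by
      refine sup_le (hf i hi) ?_
      intro k hk g
      have h4 := tr_comm (f := fun g => ∑ j ∈ s, f j g) (f' := fun g => ∑ j ∈ s, f j g)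
        (hN i hi hi₀ k (Or.inr (Or.inl hk))) (hs hk) g
      rw [h2, h2] at h4
      exact smul_right_injective R hcard h4
    exact h3 (hK i hi)
  intro i hi
  by_cases h0 : i = i₀
  · subst h0
    refine eq_zero_of_odd (c := c) ?_ (ho i hi)
    have h3 : H i ⊔ K ≤ leftStab (f i) := by
      refine sup_le (hf i hi) ?_
      intro k hk g
      have h4 := hs hk g
      have h5 : ∀ g, ∑ j ∈ s, f j g = f i g := fun g =>
        Finset.sum_eq_single_of_mem i hi (fun j hj hji => key j hj hji g)
      change ∑ j ∈ s, f j (k * g) = ∑ j ∈ s, f j g at h4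
      rw [h5, h5] at h4
      exact h4
    exact h3 (hK i hi)
  · exact key i hi h0

end Pool.Agent.U173.SL
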