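import Pool.Agent.U173.SL.Fin
import Pool.Agent.U173.SL.Det
import Pool.Agent.U173.SL.FieldDefs
import Pool.Agent.U173.SL.GeoDefs

/-!
# Weil numbers with slope fields which meet pairwise in totally real fields
-/

set_option autoImplicit false

namespace Pool.Agent.U173.SL

open Polynomial Pool.Agent.TH121.KT

noncomputable section

/-- a closed subgroup which contains the Galois groups of two fields which meet in a totally real
field contains the complex conjugations -/
theorem conj_mem_of_closed {L M : IntermediateField ℚ Qb} (hreal : MeetInReal L M)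
    {S : Subgroup GQ} (hS : IsClosed (S : Set GQ)) (hL : L.fixingSubgroup ≤ S)
    (hM : M.fixingSubgroup ≤ S) {φ : Qb →+* ℂ} {c : GQ}
    (hc : ∀ z, φ (c z) = (starRingEnd ℂ) (φ z)) : c ∈ S := by
  have h1 : IntermediateField.fixedField S ≤ L ⊓ M := by
    refine le_inf ?_ ?_
    · intro z hz
      exact mem_of_fixed L fun h hh => hz ⟨h, hL fun w => hh w w.2⟩
    · intro z hz
      exact mem_of_fixed M fun h hh => hz ⟨h, hM fun w => hh w w.2⟩
  have h2 : (IntermediateField.fixedField S).fixingSubgroup = S :=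
    InfiniteGalois.fixingSubgroup_fixedField ⟨S, hS⟩
  rw [← h2]
  rintro ⟨z, hz⟩
  apply φ.injective
  change φ (c z) = φ z
  rw [hc]
  exact hreal z (h1 hz).1 (h1 hz).2 φ

theorem mem_fixing {L : IntermediateField ℚ Qb} {h : GQ} :
    h ∈ L.fixingSubgroup ↔ ∀ z ∈ L, h z = z :=
  ⟨fun hh z hz => hh ⟨z, hz⟩, fun hh z => hh z z.2⟩

variable {p : ℕ} [Fact p.Prime] {ι : Qb →+* PadicAlgCl p}

/-- the normalised logarithm of the absolute value of a conjugate -/
def lg (ι : Qb →+* PadicAlgCl p) (n : ℕ) (x : Qb) (g : GQ) : ℝ :=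
  2 * Real.log ‖ι (g x)‖ - n * Real.log ‖(p : PadicAlgCl p)‖

theorem norm_conj_ne {x : Qb} (hx : x ≠ 0) (g : GQ) : ‖ι (g x)‖ ≠ 0 := by
  rw [norm_ne_zero_iff, _root_.map_ne_zero, _root_.map_ne_zero]
  exact hx

theorem weil_ne_zero {m w : ℕ} {x : Qb} (hW : IsWeilNumber (p ^ m) w x) : x ≠ 0 := by
  rintro rfl
  have h1 := weil_conj hW (IsAlgClosed.lift : Qb →ₐ[ℚ] ℂ).toRingHom 1
  have h2 : ((p ^ m : ℕ) : ℝ) ^ w ≠ 0 := by
    have : (p : ℝ) ≠ 0 := by exact_mod_cast (Fact.out : p.Prime).ne_zero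
    push_cast
    positivity
  apply h2
  rw [← h1, map_zero, map_zero, norm_zero]
  norm_num

/-- **The main lemma for several fields.** -/
theorem core_pair {I : Type*} [DecidableEq I] {K : IntermediateField ℚ Qb}
    {L : I → IntermediateField ℚ Qb} {s : Finset I} (hL : ArePairwise K L (s : Set I))
    {M : IntermediateField ℚ Qb} (hKM : K ≤ M) (hM : ∀ i ∈ s, MeetInReal (L i) M)
    {x : I → Qb} (hx : ∀ i ∈ s, Det ι (L i) (x i)) {m w : I → ℕ}
    (hW : ∀ i ∈ s, IsWeilNumber (p ^ m i) (w i) (x i)) (hprod : Det ι M (∏ i ∈ s, x i)) :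
    ∀ i ∈ s, ∃ N : ℕ, 0 < N ∧ x i ^ (2 * N) = (p : Qb) ^ (m i * w i * N) := by
  classical
  have hp : p.Prime := Fact.out
  rcases s.eq_empty_or_nonempty with rfl | hs0
  · intro i hi
    exact absurd hi (Finset.notMem_empty i)
  obtain ⟨i₀, hnormal⟩ := hL.exists_index hs0
  -- a finite Galois extension which contains the `x i`
  let F : IntermediateField ℚ Qb :=
    IntermediateField.normalClosure ℚ (IntermediateField.adjoin ℚ ((fun i => x i) '' (s : Set I))) Qb
  have hfd : FiniteDimensional ℚ (IntermediateField.adjoin ℚ ((fun i => x i) '' (s : Set I))) :=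
    IntermediateField.finiteDimensional_adjoin fun y _ => Algebra.IsIntegral.isIntegral y
  have hF : FiniteDimensional ℚ F := normalClosure.is_finiteDimensional _ _ _
  have hn : Normal ℚ F := normalClosure.normal ℚ _ _
  have hxF : ∀ i ∈ s, x i ∈ F := fun i hi => (IntermediateField.le_normalClosure _)
    (IntermediateField.subset_adjoin ℚ _ ⟨i, hi, rfl⟩)
  let π : GQ →* (F ≃ₐ[ℚ] F) := AlgEquiv.restrictNormalHom F
  have hπ : Function.Surjective π := AlgEquiv.restrictNormalHom_surjective Qb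
  have hπx : ∀ (g : GQ) (z : F), ((π g z : F) : Qb) = g z := fun g z =>
    AlgEquiv.restrictNormal_commutes g F z
  let sec : (F ≃ₐ[ℚ] F) → GQ := Function.surjInv hπ
  have hsec : ∀ σ, π (sec σ) = σ := Function.surjInv_eq hπ
  have hfin : Fintype (F ≃ₐ[ℚ] F) := Fintype.ofFinite _
  let f : I → (F ≃ₐ[ℚ] F) → ℝ := fun i σ => lg ι (m i * w i) (x i) (sec σ)
  have hf : ∀ i ∈ s, ∀ g : GQ, f i (π g) = lg ι (m i * w i) (x i) g := by
    intro i hi g
    have h1 : sec (π g) (x i) = g (x i) := by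
      rw [← hπx g ⟨x i, hxF i hi⟩, ← hπx (sec (π g)) ⟨x i, hxF i hi⟩, hsec]
    change lg ι (m i * w i) (x i) (sec (π g)) = _
    unfold lg
    rw [h1]
  let φ : Qb →+* ℂ := (IsAlgClosed.lift : Qb →ₐ[ℚ] ℂ).toRingHom
  obtain ⟨c, hc⟩ := exists_conj φ
  have hker : F.fixingSubgroup ≤ π.ker := by
    intro g hg
    rw [MonoidHom.mem_ker]
    refine AlgEquiv.ext fun z => Subtype.ext ?_
    rw [hπx]
    exact hg z
  have hcm : ∀ {L' M' : IntermediateField ℚ Qb}, MeetInReal L' M' →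
      π c ∈ L'.fixingSubgroup.map π ⊔ M'.fixingSubgroup.map π := by
    intro L' M' h
    have h1 : c ∈ (L'.fixingSubgroup.map π ⊔ M'.fixingSubgroup.map π).comap π := by
      refine conj_mem_of_closed h ?_ ?_ ?_ hc
      · apply Subgroup.isClosed_of_isOpen
        refine Subgroup.isOpen_mono (H₁ := F.fixingSubgroup) ?_
          (IntermediateField.fixingSubgroup_isOpen F)
        exact hker.trans (MonoidHom.ker_le_comap π _)
      · exact Subgroup.map_le_iff_le_comap.1 le_sup_left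
      · exact Subgroup.map_le_iff_le_comap.1 le_sup_right
    exact h1
  have hcK : ∀ z ∈ K, c z = z := by
    intro z hz
    apply φ.injective
    rw [hc]
    exact hL.real z hz φ
  have hnorm : ∀ i ∈ s, i ≠ i₀ → ∀ k : GQ, (∀ z ∈ K, k z = z) →
      ∀ h ∈ (L i).fixingSubgroup.map π, (π k)⁻¹ * h * π k ∈ (L i).fixingSubgroup.map π := by
    intro i hi hi₀ k hk h hh
    obtain ⟨h0, hh0, rfl⟩ := hh
    refine ⟨k⁻¹ * h0 * k, ?_, by rw [map_mul, map_mul, map_inv]⟩
    refine mem_fixing.2 fun z hz => ?_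
    have h1 : k z ∈ L i := (hnormal i hi hi₀).2 k hk z hz
    change k⁻¹ (h0 (k z)) = z
    rw [mem_fixing.1 hh0 _ h1]
    change (k⁻¹ * k) z = z
    rw [inv_mul_cancel]
    rfl
  have hall := indep s (fun i => (L i).fixingSubgroup.map π) (M.fixingSubgroup.map π) (π c) i₀
    (by
      intro i hi hi₀ k hk h hh
      obtain ⟨k0, rfl, hk0⟩ : ∃ k0 : GQ, π k0 = k ∧ ∀ z ∈ K, k0 z = z := by
        rcases hk with rfl | hk | ⟨j, hj, hk⟩
        · exact ⟨c, rfl, hcK⟩
        · obtain ⟨k0, hk0, rfl⟩ := hk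
          exact ⟨k0, rfl, fun z hz => mem_fixing.1 hk0 z (hKM hz)⟩
        · obtain ⟨k0, hk0, rfl⟩ := hk
          exact ⟨k0, rfl, fun z hz => mem_fixing.1 hk0 z (hL.le j hj hz)⟩
      exact hnorm i hi hi₀ k0 hk0 h hh)
    (fun i hi j hj hij => hcm (fun z h1 h2 => hL.meet i hi j hj hij z h1 h2)) (fun i hi => hcm (hM i hi)) f
    (by
      intro i hi h hh σ
      obtain ⟨h0, hh0, rfl⟩ := hh
      obtain ⟨g, rfl⟩ := hπ σ
      rw [← map_mul, hf i hi, hf i hi]
      unfold lg
      change 2 * Real.log ‖ι (h0 (g (x i)))‖ - _ = _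
      rw [hx i hi h0 (mem_fixing.1 hh0) g])
    (by
      intro i hi σ
      obtain ⟨g, rfl⟩ := hπ σ
      rw [← map_mul, hf i hi, hf i hi]
      have h1 : g (x i) * c (g (x i)) = (p : Qb) ^ (m i * w i) := by
        apply φ.injective
        rw [map_mul, hc, Complex.mul_conj, Complex.normSq_eq_norm_sq, weil_conj (hW i hi) φ g,
          map_pow, map_natCast]
        push_cast
        rw [← pow_mul]
      have h2 : ‖ι (g (x i))‖ * ‖ι (c (g (x i)))‖ = ‖(p : PadicAlgCl p)‖ ^ (m i * w i) := by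
        rw [← norm_mul, ← map_mul, h1, map_pow, map_natCast, norm_pow]
      have hx0 := weil_ne_zero (hW i hi)
      have h3 := congrArg Real.log h2
      have h4 : ‖ι (c (g (x i)))‖ ≠ 0 := norm_conj_ne hx0 (c * g)
      rw [Real.log_mul (norm_conj_ne hx0 g) h4, Real.log_pow] at h3
      unfold lg
      change 2 * Real.log ‖ι (c (g (x i)))‖ - _ = _
      linarith)
    (by
      intro h hh σ
      obtain ⟨h0, hh0, rfl⟩ := hh
      obtain ⟨g, rfl⟩ := hπ σ
      have hsum : ∀ g : GQ, ∑ i ∈ s, f i (π g) = 2 * Real.log ‖ι (g (∏ i ∈ s, x i))‖ -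
          ∑ i ∈ s, ((m i * w i : ℕ) : ℝ) * Real.log ‖(p : PadicAlgCl p)‖ := by
        intro g
        have h1 : Real.log ‖ι (g (∏ i ∈ s, x i))‖ = ∑ i ∈ s, Real.log ‖ι (g (x i))‖ := by
          rw [map_prod, map_prod, norm_prod, Real.log_prod]
          exact fun i hi => norm_conj_ne (weil_ne_zero (hW i hi)) g
        rw [h1, Finset.mul_sum, ← Finset.sum_sub_distrib]
        exact Finset.sum_congr rfl fun i hi => hf i hi g
      change ∑ i ∈ s, f i (π h0 * π g) = ∑ i ∈ s, f i (π g)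
      rw [← map_mul, hsum, hsum]
      change 2 * Real.log ‖ι (h0 (g (∏ i ∈ s, x i)))‖ - _ = _
      rw [hprod h0 (mem_fixing.1 hh0) g])
  intro i hi
  refine torsion_of_slopes (ι := ι) (hW i hi) fun g => ?_
  have h1 := hall i hi (π g)
  rw [hf i hi] at h1
  unfold lg at h1
  have h2 := norm_conj_ne (ι := ι) (weil_ne_zero (hW i hi)) g
  have h3 : (0 : ℝ) < ‖(p : PadicAlgCl p)‖ := by
    rw [norm_pos_iff]
    exact_mod_cast hp.ne_zero
  have h4 : Real.log (‖ι (g (x i))‖ ^ 2) = Real.log (‖(p : PadicAlgCl p)‖ ^ (m i * w i)) := by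
    rw [Real.log_pow, Real.log_pow]
    push_cast at h1 ⊢
    linarith
  exact Real.log_injOn_pos (Set.mem_Ioi.2 (by positivity)) (Set.mem_Ioi.2 (by positivity)) h4

end

end Pool.Agent.U173.SL
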