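import Pool.Agent.U173.SL.GeoDefs
import Pool.Agent.U173.SL.FieldDefs

/-!
# Products of good varieties: definitions
-/

set_option autoImplicit false

open CategoryTheory AlgebraicGeometry NumberField

universe u v

namespace Pool.Agent.U173.SL

open Pool.Agent.H914 Pool.Agent.H914.VarClass Pool.Agent.H914.VarClass.Obj
  Pool.Agent.H914.WeilCohomology Pool.Agent.W534

/-- `Z` is a product, with any bracketing, of good varieties `X i` with slope fields `L i`, for `i ∈ s`,
exactly one for each index `i`. -/
inductive IsProductOfGood {k : Type u} [Field k] {𝒱 : VarClass k} {ops : CycleOps 𝒱}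
    {W : WeilCohomology.{u, v} ops} {p : ℕ} [Fact p.Prime] (Φ : FrobSystem W p)
    (ι : AlgebraicClosure ℚ →+* PadicAlgCl p) {I : Type} [DecidableEq I]
    (L : I → IntermediateField ℚ (AlgebraicClosure ℚ)) : Finset I → 𝒱.Obj → Prop
  | good {i : I} {X : 𝒱.Obj} : IsGood Φ ι (L i) X → IsProductOfGood Φ ι L {i} X
  | prod {s t : Finset I} {X Y : 𝒱.Obj} : IsProductOfGood Φ ι L s X → IsProductOfGood Φ ι L t Y →
      Disjoint s t → IsProductOfGood Φ ι L (s ∪ t) (X.prod Y)

end Pool.Agent.U173.SL
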