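import Pool.Agent.U173.SL.Pair
import Pool.Agent.U173.SL.PairDefs
import Pool.Agent.U173.SL.Prod
import Pool.Agent.U173.SL.Bridge

/-!
# Products of good varieties with slope fields which meet pairwise in totally real fields
-/

set_option autoImplicit false
set_option linter.unusedSectionVars false

open CategoryTheory AlgebraicGeometry NumberField
open scoped TensorProduct

universe u v

namespace Pool.Agent.U173.SL

open Pool.Agent.H914 Pool.Agent.H914.VarClass Pool.Agent.H914.VarClass.Obj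
  Pool.Agent.H914.WeilCohomology Pool.Agent.H281R3.HT Pool.Agent.W552 Pool.Agent.W534
  Pool.Agent.W458.RK Pool.Agent.W458.MF Pool.Agent.TH132.A Pool.Agent.TH121.KT Pool.Agent.H447
  Pool.Agent.Y138.TU Pool.Agent.W536.RR Polynomial

variable {k : Type u} [Field k] {𝒱 : VarClass k} {ops : CycleOps 𝒱}
  {W : WeilCohomology.{u, v} ops} {X Y U Z : 𝒱.Obj} {p : ℕ} [Fact p.Prime] {Φ : FrobSystem W p}
  {ι : Qb →+* PadicAlgCl p} {I : Type} [DecidableEq I] {K M : IntermediateField ℚ Qb}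
  {L : I → IntermediateField ℚ Qb} {s t : Finset I}

/-- a power of `x` is a power of `p` -/
def SS (p : ℕ) (x : Qb) : Prop := ∃ (N : ℕ) (b : ℤ), 0 < N ∧ x ^ N = (p : Qb) ^ b

theorem SS.of_pow {x : Qb} {n : ℕ} (hn : 0 < n) (h : SS p (x ^ n)) : SS p x := by
  obtain ⟨N, b, hN, h⟩ := h
  exact ⟨n * N, b, Nat.mul_pos hn hN, by rw [pow_mul, h]⟩

theorem SS.pow {x : Qb} (n : ℕ) (h : SS p x) : SS p (x ^ n) := by
  obtain ⟨N, b, hN, h⟩ := h
  exact ⟨N, b * n, hN, by rw [← pow_mul, mul_comm n, pow_mul, h, zpow_mul, zpow_natCast]⟩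

/-- Weil numbers of some weight, whose slopes are determined by `L` -/
def WD (ι : Qb →+* PadicAlgCl p) (L : IntermediateField ℚ Qb) (x : Qb) : Prop :=
  Det ι L x ∧ ∃ m w, IsWeilNumber (p ^ m) w x

theorem weil_pow {m w : ℕ} {x : Qb} (h : IsWeilNumber (p ^ m) w x) (n : ℕ) :
    IsWeilNumber (p ^ m) (w * n) (x ^ n) := by
  refine weil_of_norms ((weil_integral h).pow n) fun φ g => ?_
  rw [map_pow, map_pow, norm_pow, ← pow_mul, mul_comm n 2, pow_mul, weil_conj h φ g, ← pow_mul]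

theorem WD.pow {L : IntermediateField ℚ Qb} {x : Qb} (h : WD ι L x) (n : ℕ) : WD ι L (x ^ n) :=
  ⟨h.1.pow n, by obtain ⟨m, w, hw⟩ := h.2; exact ⟨m, w * n, weil_pow hw n⟩⟩

/-- the set of the elements which are attached to families of Weil numbers -/
def decSet (Φ : FrobSystem W p) (ι : Qb →+* PadicAlgCl p) (τ : Qb →+* W.K)
    (L : I → IntermediateField ℚ Qb) (s : Finset I) (Z : 𝒱.Obj) (μ : W.K) : Set (W.H Z) :=
  {z | ∃ (A : ℕ) (x : I → Qb), 0 < A ∧ (∀ i ∈ s, WD ι (L i) (x i)) ∧ μ ^ A = τ (∏ i ∈ s, x i) ∧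
    ((∀ i ∈ s, SS p (x i)) → z ∈ algSpan W Z)}

/-- the generalised eigenvectors are combinations of such elements -/
def Dec (Φ : FrobSystem W p) (ι : Qb →+* PadicAlgCl p) (τ : Qb →+* W.K)
    (L : I → IntermediateField ℚ Qb) (s : Finset I) (Z : 𝒱.Obj) : Prop :=
  ∀ t : ℕ, 0 < t → ∀ μ : W.K, ∀ z ∈ (frob Φ Z t).maxGenEigenspace μ,
    z ∈ Submodule.span W.K (decSet Φ ι τ L s Z μ)

theorem dec_good [IsAlgClosed W.K] (τ : Qb →+* W.K) {i : I} (hX : IsGood Φ ι (L i) X) :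
    Dec Φ ι τ L {i} X := by
  intro t ht μ z hz
  by_cases hμ : Module.End.HasEigenvalue (frob Φ X t) μ
  swap
  · have h1 : Module.End.maxGenEigenspace (frob Φ X t) μ = ⊥ := by
      by_contra hne
      apply hμ
      have h2 : (frob Φ X t).HasUnifEigenvalue μ ⊤ := hne
      exact h2.lt one_pos
    rw [h1] at hz
    rw [(Submodule.mem_bot _).1 hz]
    exact Submodule.zero_mem _
  obtain ⟨μ₀, hμ₀, rfl⟩ := eig_root ht hμ
  obtain ⟨Q, hQ0, hLQ, hQμ⟩ := hX.slopes μ₀ hμ₀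
  obtain ⟨w, hW⟩ := hX.pure μ₀ hμ₀
  obtain ⟨x, hx, hτx⟩ := exists_root τ hQ0 hQμ
  have hWD : WD ι (L i) x := ⟨det_of_root hLQ hx, _, w, weil_lift τ hτx hW⟩
  refine Submodule.subset_span ⟨1, fun _ => x ^ t, one_pos, ?_, ?_, ?_⟩
  · intro j hj
    rw [Finset.mem_singleton.1 hj]
    exact hWD.pow t
  · rw [Finset.prod_singleton, pow_one, map_pow, hτx]
  · intro h
    obtain ⟨N, b, hN, h⟩ := h i (Finset.mem_singleton_self i)
    refine hX.algebraic t ht (μ₀ ^ t) N b hN ?_ hz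
    rw [← hτx, ← map_pow, ← map_pow, h, map_zpow₀, map_natCast]

theorem ext_mem_of_span {S : Set (W.H X)} {T : Set (W.H Y)} {P : Submodule W.K (W.H (X.prod Y))}
    (h : ∀ a ∈ S, ∀ b ∈ T, extMap W X Y a b ∈ P) {a : W.H X} {b : W.H Y}
    (ha : a ∈ Submodule.span W.K S) (hb : b ∈ Submodule.span W.K T) : extMap W X Y a b ∈ P := by
  induction ha using Submodule.span_induction with
  | mem a ha =>
    induction hb using Submodule.span_induction with
    | mem b hb => exact h a ha b hb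
    | zero => rw [map_zero]; exact Submodule.zero_mem _
    | add v w _ _ hv hw => rw [map_add]; exact Submodule.add_mem _ hv hw
    | smul r v _ hv => rw [map_smul]; exact Submodule.smul_mem _ _ hv
  | zero => rw [map_zero, LinearMap.zero_apply]; exact Submodule.zero_mem _
  | add v w _ _ hv hw => rw [map_add, LinearMap.add_apply]; exact Submodule.add_mem _ hv hw
  | smul r v _ hv => rw [map_smul, LinearMap.smul_apply]; exact Submodule.smul_mem _ _ hv

theorem dec_prod [IsAlgClosed W.K] (τ : Qb →+* W.K) (hX : Dec Φ ι τ L s X) (hY : Dec Φ ι τ L t Y)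
    (hst : Disjoint s t) : Dec Φ ι τ L (s ∪ t) (X.prod Y) := by
  classical
  intro r hr μ y hy
  obtain ⟨A, B, C, hA, hB, hC, hAB, hAC, hcomm⟩ := exists_comm' Φ X Y
  have h1 : y ∈ Module.End.maxGenEigenspace (frob Φ (X.prod Y) (A * r)) (μ ^ A) := by
    rw [mul_comm A r, frob_mul_eq]
    exact gen_pow_of_gen hy A
  refine (Submodule.span_le.2 ?_) (decomp (hcomm r) h1)
  rintro w ⟨α, β, a, b, hα, hβ, ha, hb, hαβ, rfl⟩
  refine ext_mem_of_span ?_ (hX (B * r) (Nat.mul_pos hB hr) α a ha)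
    (hY (C * r) (Nat.mul_pos hC hr) β b hb)
  rintro a ⟨A₁, x, hA₁, hx, hrel₁, halg₁⟩ b ⟨A₂, x', hA₂, hx', hrel₂, halg₂⟩
  have hdis : ∀ i ∈ t, i ∉ s := fun i hi hi' => Finset.disjoint_left.1 hst hi' hi
  refine Submodule.subset_span ⟨A * (A₁ * A₂), fun i => if i ∈ s then x i ^ A₂ else x' i ^ A₁,
    by positivity, ?_, ?_, ?_⟩
  · intro i hi
    by_cases his : i ∈ s
    · simp only [his, if_true]
      exact (hx i his).pow _
    · simp only [his, if_false]
      exact (hx' i ((Finset.mem_union.1 hi).resolve_left his)).pow _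
  · rw [Finset.prod_union hst, map_mul,
      Finset.prod_congr rfl (fun i hi => if_pos hi),
      Finset.prod_congr (s₁ := t) rfl (fun i hi => if_neg (hdis i hi)), Finset.prod_pow,
      Finset.prod_pow, map_pow, map_pow, ← hrel₁, ← hrel₂, ← pow_mul, ← pow_mul, pow_mul, ← hαβ,
      mul_pow, mul_comm A₂ A₁]
  · intro h
    have h5 : a ∈ algSpan W X := halg₁ fun i hi => by
      have h6 := h i (Finset.mem_union_left _ hi)
      simp only [hi, if_true] at h6
      exact h6.of_pow hA₂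
    have h7 : b ∈ algSpan W Y := halg₂ fun i hi => by
      have h6 := h i (Finset.mem_union_right _ hi)
      simp only [hdis i hi, if_false] at h6
      exact h6.of_pow hA₁
    exact algSpan_mul (algSpan_map _ h5) (algSpan_map _ h7)

theorem dec_of_product [IsAlgClosed W.K] (τ : Qb →+* W.K) (h : IsProductOfGood Φ ι L s Z) :
    Dec Φ ι τ L s Z := by
  induction h with
  | good h => exact dec_good τ h
  | prod _ _ hst h1 h2 => exact dec_prod τ h1 h2 hst

/-- **The vanishing theorem**: if the product of the eigenvalue with a number with slopes determined by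
`M` is a power of `p`, then the generalised eigenvectors are algebraic. -/
theorem alg_of_rel [IsAlgClosed W.K] (τ : Qb →+* W.K) (hZ : Dec Φ ι τ L s Z)
    (hL : ArePairwise K L (s : Set I)) (hKM : K ≤ M) (hM : ∀ i ∈ s, MeetInReal (L i) M) {r : ℕ}
    (hr : 0 < r) {μ : W.K} {y : Qb} (hy : Det ι M y) {B N : ℕ} (hN : 0 < N) {C : ℤ}
    (hrel : μ ^ N * τ y ^ B = (p : W.K) ^ C) :
    (frob Φ Z r).maxGenEigenspace μ ≤ algSpan W Z := by
  classical
  have hp : p.Prime := Fact.out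
  intro z hz
  refine (Submodule.span_le.2 ?_) (hZ r hr μ z hz)
  rintro z ⟨A, x, hA, hx, hrel₁, halg⟩
  refine halg ?_
  have hrel₂ : (∏ i ∈ s, x i) ^ N * y ^ (B * A) = (p : Qb) ^ (C * (A : ℤ)) := by
    apply τ.injective
    rw [map_mul, map_pow, map_pow, ← hrel₁, ← pow_mul, mul_comm A N, pow_mul, pow_mul (τ y),
      ← mul_pow, hrel, map_zpow₀, map_natCast, zpow_mul, zpow_natCast]
  have hpn : ‖(p : PadicAlgCl p)‖ ≠ 0 := by
    have : (p : PadicAlgCl p) ≠ 0 := by exact_mod_cast hp.ne_zero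
    exact norm_ne_zero_iff.2 this
  have hdet : Det ι M (∏ i ∈ s, x i) := by
    intro h hh g
    have hnorm : ∀ g : GQ, ‖ι (g (∏ i ∈ s, x i))‖ ^ N * ‖ι (g y)‖ ^ (B * A) =
        ‖(p : PadicAlgCl p)‖ ^ (C * (A : ℤ)) := by
      intro g
      rw [← norm_pow, ← norm_pow, ← norm_mul, ← map_pow, ← map_pow, ← map_pow, ← map_pow, ← map_mul,
        ← map_mul, hrel₂, map_zpow₀, map_zpow₀, map_natCast, map_natCast, norm_zpow]
    have h1 := hnorm g
    have h2 := hnorm (h * g)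
    have h3 : ‖ι ((h * g) y)‖ = ‖ι (g y)‖ := hy h hh g
    rw [h3, ← h1] at h2
    have h4 : ‖ι (g y)‖ ^ (B * A) ≠ 0 := by
      intro h0
      rw [h0, mul_zero] at h1
      exact zpow_ne_zero _ hpn h1.symm
    have h5 : ‖ι ((h * g) (∏ i ∈ s, x i))‖ ^ N = ‖ι (g (∏ i ∈ s, x i))‖ ^ N :=
      mul_right_cancel₀ h4 h2
    exact (pow_left_inj₀ (norm_nonneg _) (norm_nonneg _) hN.ne').1 h5
  have hm : ∀ i ∈ s, ∃ mw : ℕ × ℕ, IsWeilNumber (p ^ mw.1) mw.2 (x i) := fun i hi => by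
    obtain ⟨m, w, h⟩ := (hx i hi).2
    exact ⟨(m, w), h⟩
  choose! mw hmw using hm
  intro i hi
  obtain ⟨N', hN', h⟩ := core_pair (ι := ι) hL hKM hM (fun i hi => (hx i hi).1)
    (m := fun i => (mw i).1) (w := fun i => (mw i).2) hmw hdet i hi
  exact ⟨2 * N', (((mw i).1 * (mw i).2 * N' : ℕ) : ℤ), by positivity, by rw [h, zpow_natCast]⟩

/-- **Tate classes on the products with all varieties with independent slopes.** -/
theorem tateTimesP_of_pair [IsAlgClosed W.K] (hZ : IsProductOfGood Φ ι L s Z)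
    (hL : ArePairwise K L (s : Set I)) (hKM : K ≤ M) (hM : ∀ i ∈ s, MeetInReal (L i) M) :
    TateTimesP Φ (InL p ι M) Z := by
  classical
  let τ : Qb →+* W.K := (IsAlgClosed.lift : Qb →ₐ[ℚ] W.K).toRingHom
  have hdec := dec_of_product τ hZ
  intro r hr V _ _ _ G hG c a x hx
  have hp0 : (p : W.K) ≠ 0 := by exact_mod_cast (Fact.out : p.Prime).ne_zero
  have hQ : (card Φ Z r : W.K) ≠ 0 := card_ne Φ r
  refine (tensor_killed (F := frob Φ Z r) (G := G) (card Φ Z r : W.K) hQ c (fun i => cycSub W Z i)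
    (fun i y hy => cyc_killed Φ hy) ?_ a x).1 hx
  intro μ ν N hN hν hrel
  refine le_trans ?_ algSpan_le_cyc
  obtain ⟨R, ν₀, t, ht, hR0, hMR, hν₀, rfl⟩ := hG ν hν
  obtain ⟨y, hy, hτy⟩ := exists_root τ hR0 hν₀
  refine alg_of_rel τ hdec hL hKM hM hr (det_of_root hMR hy) (B := t * N) hN
    (C := ((Φ.e Z * r : ℕ) : ℤ) * c * (N : ℤ)) ?_
  rw [hτy, pow_mul, ← mul_pow, hrel, W534.card]
  push_cast
  rw [← zpow_natCast (p : W.K) (Φ.e Z * r), ← zpow_mul, zpow_mul _ _ (N : ℤ), zpow_natCast]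
  push_cast
  rfl

/-- products of good varieties: supersingular eigenvectors are algebraic -/
theorem supersingular_of_pair [IsAlgClosed W.K] (hZ : IsProductOfGood Φ ι L s Z)
    (hL : ArePairwise K L (s : Set I)) : SupersingularAlgebraic Φ Z := by
  classical
  let τ : Qb →+* W.K := (IsAlgClosed.lift : Qb →ₐ[ℚ] W.K).toRingHom
  intro r hr μ N b hN hμ
  refine alg_of_rel (M := K) τ (dec_of_product τ hZ) hL le_rfl
    (fun i _ z _ hz => hL.real z hz) hr (y := 1) (B := 1) ?_ hN (C := b) ?_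
  · intro h _ g
    rw [map_one, map_one]
  · rw [map_one, one_pow, mul_one, hμ]

/-- eigenvalues on a product -/
theorem isGood_of_pair [IsAlgClosed W.K] (hZ : IsProductOfGood Φ ι L s Z)
    (hL : ArePairwise K L (s : Set I)) : IsGood Φ ι (⨆ i ∈ s, L i) Z := by
  classical
  have hp : p.Prime := Fact.out
  let τ : Qb →+* W.K := (IsAlgClosed.lift : Qb →ₐ[ℚ] W.K).toRingHom
  have hkey : ∀ ω : W.K, Module.End.HasEigenvalue (W.map (Φ.Fr Z)).toLinearMap ω →
      ∃ y : Qb, τ y = ω ∧ Det ι (⨆ i ∈ s, L i) y ∧ ∃ w, IsWeilNumber (p ^ Φ.e Z) w y := by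
    clear hL
    induction hZ with
    | @good i X h =>
      intro ω hω
      obtain ⟨Q, hQ0, hLQ, hQω⟩ := h.slopes ω hω
      obtain ⟨w, hW⟩ := h.pure ω hω
      obtain ⟨x, hx, hτx⟩ := exists_root τ hQ0 hQω
      refine ⟨x, hτx, ?_, w, weil_lift τ hτx hW⟩
      exact (det_of_root hLQ hx).mono (by simp)
    | @prod s t X Y _ _ _ h1 h2 =>
      intro ω hω
      obtain ⟨A, B, C, hA, hB, hC, hAB, hAC, hfac⟩ := exists_factor Φ X Y
      obtain ⟨α, β, hα, hβ, hrel⟩ := hfac ω hω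
      obtain ⟨x₁, hτ₁, hd₁, w₁, hW₁'⟩ := h1 α hα
      obtain ⟨x₂, hτ₂, hd₂, w₂, hW₂'⟩ := h2 β hβ
      obtain ⟨y, hyA⟩ : ∃ y : Qb, τ y = ω := by
        have halg : IsAlgebraic ℚ (ω ^ A) := by
          rw [hrel, ← hτ₁, ← hτ₂, ← map_pow, ← map_pow, ← map_mul]
          exact (Algebra.IsAlgebraic.isAlgebraic (R := ℚ) (x₁ ^ B * x₂ ^ C)).algHom
            (τ.toRatAlgHom)
        obtain ⟨P, hP0, hP⟩ := IsAlgebraic.of_pow hA halg
        obtain ⟨y, -, hy⟩ := exists_root τ hP0 hP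
        exact ⟨y, hy⟩
      have hrel' : y ^ A = x₁ ^ B * x₂ ^ C := by
        apply τ.injective
        rw [map_pow, map_mul, map_pow, map_pow, hyA, hτ₁, hτ₂, hrel]
      have hle₁ : (⨆ i ∈ s, L i) ≤ ⨆ i ∈ s ∪ t, L i :=
        biSup_mono fun i hi => Finset.mem_union_left _ hi
      have hle₂ : (⨆ i ∈ t, L i) ≤ ⨆ i ∈ s ∪ t, L i :=
        biSup_mono fun i hi => Finset.mem_union_right _ hi
      refine ⟨y, hyA, ?_, w₁ + w₂, weil_of_norms ?_ fun φ g => ?_⟩
      · refine Det.of_pow hA.ne' ?_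
        rw [hrel']
        exact ((hd₁.mono hle₁).pow B).mul ((hd₂.mono hle₂).pow C)
      · refine IsIntegral.of_pow hA ?_
        rw [hrel']
        exact ((weil_integral hW₁').pow B).mul ((weil_integral hW₂').pow C)
      · have h1 := weil_conj hW₁' φ g
        have h2 := weil_conj hW₂' φ g
        have h3 : (‖φ (g y)‖ ^ 2) ^ A = ((((p ^ Φ.e (X.prod Y) : ℕ) : ℝ)) ^ (w₁ + w₂)) ^ A := by
          have h4 : φ (g y) ^ A = φ (g x₁) ^ B * φ (g x₂) ^ C := by
            rw [← map_pow, ← map_pow, hrel', map_mul, map_mul, map_pow, map_pow, map_pow, map_pow]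
          calc (‖φ (g y)‖ ^ 2) ^ A = ‖φ (g y) ^ A‖ ^ 2 := by rw [norm_pow]; ring
            _ = (‖φ (g x₁)‖ ^ 2) ^ B * (‖φ (g x₂)‖ ^ 2) ^ C := by
              rw [h4, norm_mul, norm_pow, norm_pow]; ring
            _ = _ := by
              rw [h1, h2]
              push_cast
              rw [← pow_mul, ← pow_mul, ← pow_mul, ← pow_mul, ← pow_mul, ← pow_mul, ← pow_add]
              congr 1
              calc Φ.e X * (w₁ * B) + Φ.e Y * (w₂ * C) = (B * Φ.e X) * w₁ + (C * Φ.e Y) * w₂ := by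
                    ring
                _ = _ := by rw [← hAB, ← hAC]; ring
        exact (pow_left_inj₀ (by positivity) (by positivity) hA.ne').1 h3
  refine ⟨supersingular_of_pair hZ hL, ?_, ?_⟩
  · intro ω hω
    obtain ⟨y, rfl, -, w, hw⟩ := hkey ω hω
    exact ⟨w, weil_push τ hw⟩
  · intro ω hω
    obtain ⟨y, rfl, hdet, -⟩ := hkey ω hω
    have hyi : IsIntegral ℚ y := Algebra.IsIntegral.isIntegral y
    refine ⟨minpoly ℚ y, minpoly.ne_zero hyi, hdet.slopesFixed, ?_⟩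
    have h1 : aeval (τ.toRatAlgHom y) (minpoly ℚ y) = τ.toRatAlgHom (aeval y (minpoly ℚ y)) :=
      Polynomial.aeval_algHom_apply _ _ _
    rw [minpoly.aeval, map_zero] at h1
    exact h1

/-- **The Tate conjecture for `Z × U`.** -/
theorem tate_of_pair [IsAlgClosed W.K] (hZ : IsProductOfGood Φ ι L s Z)
    (hL : ArePairwise K L (s : Set I)) (hKM : K ≤ M) (hM : ∀ i ∈ s, MeetInReal (L i) M)
    (hU : HasSlopeField Φ ι M U) (c : ℕ) :
    (TateIn Φ (Z.prod U) c ↔ ∀ i ≤ c, (∃ x, Z.IsCyc i x ∧ ¬ HomEq W x 0) → TateIn Φ U (c - i)) ∧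
    (SemisimpleTateIn Φ (Z.prod U) c ↔
      ∀ i ≤ c, (∃ x, Z.IsCyc i x ∧ ¬ HomEq W x 0) → SemisimpleTateIn Φ U (c - i)) := by
  have hp : 1 < p := (Fact.out : p.Prime).one_lt
  have key := fun a => tateK_prod_iff (a := a) (c := c) hp (tateTimesP_of_pair hZ hL hKM hM)
    (inL_one M) (fun ν n hn h => inL_pow M ν n hn h) (inL_of_slope hU)
  constructor
  · rw [Y138.TU.tateIn_iff, key 1]
    exact forall₃_congr fun i _ _ => Y138.TU.tateIn_iff.symm
  · rw [semisimple_iff]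
    constructor
    · intro h i hi hx
      rw [semisimple_iff]
      exact fun a => (key a).1 (h a) i hi hx
    · intro h a
      exact (key a).2 fun i hi hx => semisimple_iff.1 (h i hi hx) a

end Pool.Agent.U173.SL
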